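import Pool.Agent.H.MP_e9f532_co.Main

namespace Pool.Agent.Results.MP_e9f532_co.SharpExponent
open Pool.Agent.H.MP_e9f532_co

theorem result (n : ℕ) :
    2 ^ n ≤ f n + 2 * 2 ^ ((n + 1) / 2) * (n + 1) ^ (2 * Nat.log 2 n + 11) ∧
      f n ≤ 2 ^ n ∧ 2 ^ n ≤ (2 ^ n - f n) ^ 2 :=
  ⟨lower n, upper n⟩

end Pool.Agent.Results.MP_e9f532_co.SharpExponent
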